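import Pool.Agent.N89.HG.Stm
import Pool.Agent.N40.HX.RES

/-!
Project HG (helper89): the discriminant polynomial (helper953).
-/

set_option autoImplicit false

namespace Pool.Agent.N953.HG

open Polynomial Pool.Agent.N89.HX Pool.Agent.N89.HG

/-- the square of the Vandermonde product, up to the sign -/
noncomputable def disc (e : ℕ) : MvPolynomial (Fin e) ℤ :=
  ∏ i : Fin e, ∏ j ∈ Finset.univ.erase i, (MvPolynomial.X i - MvPolynomial.X j)

lemma disc_symm (e : ℕ) (σ : Equiv.Perm (Fin e)) :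
    MvPolynomial.rename σ (disc e) = disc e := by
  unfold disc
  rw [map_prod, ← Equiv.prod_comp σ (fun i : Fin e => ∏ j ∈ Finset.univ.erase i,
    (MvPolynomial.X i - MvPolynomial.X j : MvPolynomial (Fin e) ℤ))]
  apply Finset.prod_congr rfl
  intro i _
  rw [map_prod]
  refine Finset.prod_bij (fun j _ => σ j) ?_ ?_ ?_ ?_
  · intro j hj
    have h := Finset.ne_of_mem_erase hj
    exact Finset.mem_erase.mpr ⟨fun h1 => h (σ.injective h1), Finset.mem_univ _⟩
  · intro a _ b _ h
    exact σ.injective h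
  · intro b hb
    have h := Finset.ne_of_mem_erase hb
    refine ⟨σ.symm b, Finset.mem_erase.mpr ⟨?_, Finset.mem_univ _⟩, by simp⟩
    intro h1
    apply h
    rw [← h1, Equiv.apply_symm_apply]
  · intro j _
    rw [map_sub, MvPolynomial.rename_X, MvPolynomial.rename_X]

/-- the substitution of the coefficients -/
noncomputable def Phi (e : ℕ) : MvPolynomial (Fin e) ℤ →ₐ[ℤ] MvPolynomial (Fin (e + 1)) ℤ :=
  MvPolynomial.aeval (fun m : Fin e => (-1) ^ (m.1 + 1) *
    (MvPolynomial.X (Fin.last e) ^ m.1 *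
      MvPolynomial.X (⟨e - 1 - m.1, by omega⟩ : Fin e).castSucc))

lemma key {M : Type} [Field M] {e : ℕ} (f : Fin (e + 1) → M) (W : Fin e → M)
    (h : mono f = ∏ i, (X - C (W i))) (q : MvPolynomial (Fin e) ℤ) :
    MvPolynomial.aeval f (Phi e q) =
      MvPolynomial.aeval W
        (MvPolynomial.aeval (fun i : Fin e => MvPolynomial.esymm (Fin e) ℤ (i.1 + 1)) q) := by
  have h1 : (MvPolynomial.aeval f : MvPolynomial (Fin (e + 1)) ℤ →ₐ[ℤ] M).comp (Phi e) =
      (MvPolynomial.aeval W : MvPolynomial (Fin e) ℤ →ₐ[ℤ] M).comp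
        (MvPolynomial.aeval (fun i : Fin e => MvPolynomial.esymm (Fin e) ℤ (i.1 + 1))) := by
    apply MvPolynomial.algHom_ext
    intro m
    have e1 : Phi e (MvPolynomial.X m) = (-1) ^ (m.1 + 1) *
        (MvPolynomial.X (Fin.last e) ^ m.1 *
          MvPolynomial.X (⟨e - 1 - m.1, by omega⟩ : Fin e).castSucc) := by
      unfold Phi
      rw [MvPolynomial.aeval_X]
    rw [AlgHom.comp_apply, AlgHom.comp_apply, e1, MvPolynomial.aeval_X, map_mul, map_mul, map_pow,
      map_pow, map_neg, map_one, MvPolynomial.aeval_X, MvPolynomial.aeval_X, MvPolynomial.esymm,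
      map_sum]
    simp only [map_prod, MvPolynomial.aeval_X]
    exact (Pool.Agent.N40.HX.vieta f W h m).symm
  exact congrArg (fun g : MvPolynomial (Fin e) ℤ →ₐ[ℤ] M => g q) h1

lemma disc_zero {M : Type} [Field M] {e : ℕ} (W : Fin e → M) :
    MvPolynomial.aeval W (disc e) = 0 ↔ ¬ Function.Injective W := by
  unfold disc
  rw [map_prod, Finset.prod_eq_zero_iff]
  constructor
  · rintro ⟨i, _, hi⟩ hW
    rw [map_prod, Finset.prod_eq_zero_iff] at hi
    obtain ⟨j, hj, hij⟩ := hi
    rw [map_sub, MvPolynomial.aeval_X, MvPolynomial.aeval_X, sub_eq_zero] at hij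
    exact Finset.ne_of_mem_erase hj (hW hij).symm
  · intro hW
    rw [Function.Injective] at hW
    push Not at hW
    obtain ⟨i, j, hij, hne⟩ := hW
    refine ⟨i, Finset.mem_univ _, ?_⟩
    rw [map_prod, Finset.prod_eq_zero_iff]
    refine ⟨j, Finset.mem_erase.mpr ⟨fun h => hne h.symm, Finset.mem_univ _⟩, ?_⟩
    rw [map_sub, MvPolynomial.aeval_X, MvPolynomial.aeval_X, hij, sub_self]

theorem main : S_DSC := by
  intro e
  obtain ⟨q, hq⟩ := Pool.Agent.N40.HX.surj ℤ e (disc e) (disc_symm e)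
  refine ⟨MvPolynomial.X (Fin.last e) * Phi e q, ?_⟩
  intro M _ f W h
  rw [map_mul, MvPolynomial.aeval_X, key f W h, hq, mul_eq_zero, disc_zero]

end Pool.Agent.N953.HG
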